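import Mathlib

/-!
# Signed spanning sets: the definitions used in the statements
-/

set_option autoImplicit false

namespace Pool.Agent.Q128.Span

/-- `A` is an `s`-spanning set of `G`: every element of `G` is an integer combination of the
elements of `A` whose coefficients have sum of absolute values at most `s`. -/
def IsSpanning {G : Type*} [AddCommGroup G] (s : ℕ) (A : Finset G) : Prop :=
  ∀ g : G, ∃ c : G → ℤ, ∑ a ∈ A, |c a| ≤ (s : ℤ) ∧ ∑ a ∈ A, c a • a = g

/-- the least size of an `s`-spanning set (`0` if there is none) -/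
noncomputable def phi (G : Type*) [AddCommGroup G] (s : ℕ) : ℕ :=
  sInf {n | ∃ A : Finset G, A.card = n ∧ IsSpanning s A}

/-- The answer, in terms of `ρ = ⌊(2 s + 1) / m⌋`: if `ρ = 2 k + 1` then `q ≤ 2 k (k + 1)`, or
`m` is odd, divides `s + 1` and `q = 2 k (k + 1) + 1`; if `ρ = 2 k` then `q ≤ 2 k² - k`, or
`q ≤ 2 k²` is even and it is not the case that `k` is odd and `4` divides `q`. -/
def Adm (s m q : ℕ) : Prop :=
  (∃ k : ℕ, (2 * s + 1) / m = 2 * k + 1 ∧
    (q ≤ 2 * k * (k + 1) ∨ (Odd m ∧ m ∣ s + 1 ∧ q = 2 * k * (k + 1) + 1))) ∨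
  (∃ k : ℕ, (2 * s + 1) / m = 2 * k ∧
    (q + k ≤ 2 * k ^ 2 ∨ (q ≤ 2 * k ^ 2 ∧ Even q ∧ ¬ (Odd k ∧ 4 ∣ q))))

end Pool.Agent.Q128.Span
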