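import Mathlib

/-!
# Coverings of the plane by balls of the `ℓ¹` norm around the points of `m * L`

`L` is the lattice of the integer points `(x, y)` with `q ∣ d1 * x + d2 * y`.
-/

set_option autoImplicit false

namespace Pool.Agent.Q128.Span

/-- the lattice -/
def Lat (q d1 d2 x y : ℤ) : Prop := q ∣ d1 * x + d2 * y

/-- in the coordinates `x + y`, `x - y` the translates of an `A × B` box of unit cells by the
lattice cover the plane -/
def Cell (q d1 d2 A B : ℤ) : Prop := ∀ i j : ℤ, ∃ x y : ℤ, Lat q d1 d2 x y ∧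
  x + y ≤ i ∧ i < x + y + A ∧ x - y ≤ j ∧ j < x - y + B

/-- every integer point has distance at most `s` from `m` times the lattice -/
def Cov (q d1 d2 m s : ℤ) : Prop := ∀ x y : ℤ, ∃ a b : ℤ, Lat q d1 d2 a b ∧
  |x - m * a| + |y - m * b| ≤ s

theorem Lat.add {q d1 d2 x y a b : ℤ} (h : Lat q d1 d2 x y) (h' : Lat q d1 d2 a b) :
    Lat q d1 d2 (x + a) (y + b) := by
  unfold Lat at *
  have : d1 * (x + a) + d2 * (y + b) = (d1 * x + d2 * y) + (d1 * a + d2 * b) := by ring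
  rw [this]; exact dvd_add h h'

theorem Lat.lin {q d1 d2 x y a b : ℤ} (h : Lat q d1 d2 x y) (h' : Lat q d1 d2 a b) (u v : ℤ) :
    Lat q d1 d2 (u * x + v * a) (u * y + v * b) := by
  unfold Lat at *
  have : d1 * (u * x + v * a) + d2 * (u * y + v * b) =
    u * (d1 * x + d2 * y) + v * (d1 * a + d2 * b) := by ring
  rw [this]; exact dvd_add (h.mul_left _) (h'.mul_left _)

theorem l1_iff (X Y s : ℤ) : |X| + |Y| ≤ s ↔ |X + Y| ≤ s ∧ |X - Y| ≤ s := by
  rcases abs_cases X with h1 | h1 <;> rcases abs_cases Y with h2 | h2 <;>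
    rcases abs_cases (X + Y) with h3 | h3 <;> rcases abs_cases (X - Y) with h4 | h4 <;>
    constructor <;> intro h <;> omega

/-- reduction modulo the lattice generated by `(l, -y)` and `(-w, h)` -/
theorem lshape {l h w y : ℤ} (hl : 0 < l) (hh : 0 < h) (hw : 0 ≤ w) (hy : 0 ≤ y)
    (hd : w * y < l * h) (p1 p2 : ℤ) : ∃ a b : ℤ, 0 ≤ p1 - (a * l - b * w) ∧
      p1 - (a * l - b * w) < l ∧ 0 ≤ p2 - (b * h - a * y) ∧ p2 - (b * h - a * y) < h := by
  set f : ℤ → ℤ := fun b => p2 + y * ((p1 + b * w) / l) - b * h with hf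
  have hr : ∀ b : ℤ, 0 ≤ (p1 + b * w) - l * ((p1 + b * w) / l) ∧
      (p1 + b * w) - l * ((p1 + b * w) / l) < l := by
    intro b
    have h1 := Int.emod_add_mul_ediv (p1 + b * w) l
    have h2 := Int.emod_nonneg (p1 + b * w) (ne_of_gt hl)
    have h3 := Int.emod_lt_of_pos (p1 + b * w) hl
    constructor <;> linarith
  have hD : 0 < l * h - w * y := by linarith
  obtain ⟨b, hb, hmax⟩ := Int.exists_greatest_of_bdd (P := fun b => 0 ≤ f b)
    ⟨|l * p2 + y * p1|, by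
      intro b hb
      have h1 := (hr b).1
      have h2 : l * f b ≤ l * p2 + y * p1 - b * (l * h - w * y) := by
        have : l * f b = l * p2 + y * (l * ((p1 + b * w) / l)) - b * (l * h) := by
          simp only [hf]; ring
        rw [this]
        nlinarith [mul_nonneg hy h1]
      have h3 : 0 ≤ l * f b := mul_nonneg hl.le hb
      by_contra hc
      push Not at hc
      have h4 := le_abs_self (l * p2 + y * p1)
      have h5 := abs_nonneg (l * p2 + y * p1)
      nlinarith⟩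
    ⟨-|l * p2 + y * p1 - y * (l - 1)|, by
      set b := -|l * p2 + y * p1 - y * (l - 1)| with hb
      have h1 := (hr b).2
      have h2 : l * p2 + y * p1 - y * (l - 1) - b * (l * h - w * y) ≤ l * f b := by
        have : l * f b = l * p2 + y * (l * ((p1 + b * w) / l)) - b * (l * h) := by
          simp only [hf]; ring
        rw [this]
        have h1' : (p1 + b * w) - l * ((p1 + b * w) / l) ≤ l - 1 := by linarith
        nlinarith [mul_le_mul_of_nonneg_left h1' hy]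
      have h4 := neg_abs_le (l * p2 + y * p1 - y * (l - 1))
      have h5 : b ≤ 0 := by rw [hb]; linarith [abs_nonneg (l * p2 + y * p1 - y * (l - 1))]
      have h6 : b * (l * h - w * y) ≤ b := by nlinarith
      have h7 : 0 ≤ l * f b := by linarith
      by_contra hc
      push Not at hc
      nlinarith⟩
  have hb1 : f (b + 1) < 0 := by
    by_contra hc
    push Not at hc
    have := hmax (b + 1) hc
    linarith
  have hmono : (p1 + b * w) / l ≤ (p1 + (b + 1) * w) / l :=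
    Int.ediv_le_ediv hl (by nlinarith)
  refine ⟨(p1 + b * w) / l, b, ?_, ?_, ?_, ?_⟩
  · have := (hr b).1; linarith
  · have := (hr b).2; linarith
  · have : f b = p2 - (b * h - (p1 + b * w) / l * y) := by simp only [hf]; ring
    rw [← this]; exact hb
  · have h1 : f b = p2 - (b * h - (p1 + b * w) / l * y) := by simp only [hf]; ring
    rw [← h1]
    have h2 : f b = f (b + 1) + h - y * ((p1 + (b + 1) * w) / l - (p1 + b * w) / l) := by
      simp only [hf]; ring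
    rw [h2]
    nlinarith [mul_nonneg hy (sub_nonneg.2 hmono)]

theorem cell_of_basis {q d1 d2 P1 P2 S1 S2 A B : ℤ} (hP : Lat q d1 d2 P1 P2)
    (hS : Lat q d1 d2 S1 S2) (h1 : 0 < P1 + P2) (h2 : 0 ≤ P2 - P1) (h3 : 0 < S1 - S2)
    (h4 : 0 ≤ -(S1 + S2)) (hd : (-(S1 + S2)) * (P2 - P1) < (P1 + P2) * (S1 - S2))
    (hA : P1 + P2 ≤ A) (hB : S1 - S2 ≤ B) : Cell q d1 d2 A B := by
  intro i j
  obtain ⟨a, b, e1, e2, e3, e4⟩ := lshape h1 h3 h4 h2 hd i j
  refine ⟨a * P1 + b * S1, a * P2 + b * S2, hP.lin hS a b, ?_, ?_, ?_, ?_⟩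
  · nlinarith
  · nlinarith
  · nlinarith
  · nlinarith

theorem cov_of_cell {q d1 d2 R m s : ℤ} (hc : Cell q d1 d2 R R) (hm : 0 < m)
    (hs : m * R ≤ 2 * s + 1) : Cov q d1 d2 m s := by
  intro x y
  obtain ⟨a, b, hL, h1, h2, h3, h4⟩ := hc ((2 * (x + y) + m * R) / (2 * m))
    ((2 * (x - y) + m * R) / (2 * m))
  refine ⟨a, b, hL, ?_⟩
  rw [l1_iff]
  have hm2 : 0 < 2 * m := by linarith
  have e1 := Int.emod_add_mul_ediv (2 * (x + y) + m * R) (2 * m)
  have e2 := Int.emod_nonneg (2 * (x + y) + m * R) (ne_of_gt hm2)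
  have e3 := Int.emod_lt_of_pos (2 * (x + y) + m * R) hm2
  have f1 := Int.emod_add_mul_ediv (2 * (x - y) + m * R) (2 * m)
  have f2 := Int.emod_nonneg (2 * (x - y) + m * R) (ne_of_gt hm2)
  have f3 := Int.emod_lt_of_pos (2 * (x - y) + m * R) hm2
  set i := (2 * (x + y) + m * R) / (2 * m)
  set j := (2 * (x - y) + m * R) / (2 * m)
  have g1 : 2 * m * (a + b) ≤ 2 * m * i := mul_le_mul_of_nonneg_left h1 hm2.le
  have g2 : 2 * m * (i + 1) ≤ 2 * m * (a + b + R) := mul_le_mul_of_nonneg_left (by linarith) hm2.le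
  have g3 : 2 * m * (a - b) ≤ 2 * m * j := mul_le_mul_of_nonneg_left h3 hm2.le
  have g4 : 2 * m * (j + 1) ≤ 2 * m * (a - b + R) := mul_le_mul_of_nonneg_left (by linarith) hm2.le
  constructor
  · rw [abs_le]
    have t1 : -(2 * s + 1) ≤ 2 * (x - m * a + (y - m * b)) := by nlinarith
    have t2 : 2 * (x - m * a + (y - m * b)) ≤ 2 * s + 1 := by nlinarith
    constructor <;> omega
  · rw [abs_le]
    have t1 : -(2 * s + 1) ≤ 2 * (x - m * a - (y - m * b)) := by nlinarith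
    have t2 : 2 * (x - m * a - (y - m * b)) ≤ 2 * s + 1 := by nlinarith
    constructor <;> omega

/-! ## Existence -/

theorem cell_odd {q k : ℤ} (hq : 0 < q) (hk : q ≤ 2 * k * (k + 1)) (hk0 : 0 ≤ k) :
    Cell q (k + 1) k (2 * k + 1) (2 * k + 1) := by
  refine cell_of_basis (P1 := q - 2 * k ^ 2 - k) (P2 := 2 * k ^ 2 + 3 * k + 1 - q) (S1 := k)
    (S2 := -(k + 1)) ⟨1, by ring⟩ ⟨0, by ring⟩ ?_ ?_ ?_ ?_ ?_ ?_ ?_
  all_goals nlinarith

theorem cell_even {q k : ℤ} (hq : 0 < q) (hk : q ≤ 2 * k ^ 2 - k) (hk0 : 0 < k) :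
    Cell q k (k - 1) (2 * k) (2 * k) := by
  refine cell_of_basis (P1 := k - (2 * k ^ 2 - k - q)) (P2 := k + (2 * k ^ 2 - k - q))
    (S1 := k - 1) (S2 := -k) ⟨1, by ring⟩ ⟨0, by ring⟩ ?_ ?_ ?_ ?_ ?_ ?_ ?_
  all_goals nlinarith

theorem cell_even' {a k : ℤ} (ha : 0 ≤ a) (hk : a < k ^ 2) (hk0 : 0 < k) :
    Cell (2 * k ^ 2 - 2 * a) (k + 1) (k - 1) (2 * k) (2 * k) := by
  refine cell_of_basis (P1 := k - a) (P2 := k + a)
    (S1 := k - 1) (S2 := -(k + 1)) ⟨1, by ring⟩ ⟨0, by ring⟩ ?_ ?_ ?_ ?_ ?_ ?_ ?_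
  all_goals nlinarith

theorem cell_even'' {a k : ℤ} (ha : 0 ≤ a) (hk : a < k ^ 2) (hk0 : 0 < k) :
    Cell (2 * k ^ 2 - 2 * a) (k ^ 2 - a - k - 1) (k ^ 2 - a - k + 1) (2 * k) (2 * k) := by
  refine cell_of_basis (P1 := k - a) (P2 := k + a)
    (S1 := k - 1) (S2 := -(k + 1)) ⟨k - 1, by ring⟩ ⟨-1, by ring⟩ ?_ ?_ ?_ ?_ ?_ ?_ ?_
  all_goals nlinarith

end Pool.Agent.Q128.Span
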