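import Pool.Agent.Q128.Span.Lattice

/-!
# The perfect case and the lower bounds
-/

set_option autoImplicit false

namespace Pool.Agent.Q128.Span

/-- the perfect code case -/
theorem cov_perfect {K m : ℤ} (hK : 1 ≤ K) (hm : 3 ≤ m) (hodd : m % 2 = 1) :
    Cov (2 * K ^ 2 - 2 * K + 1) K (K - 1) m (m * K - 1) := by
  have hcell : Cell (2 * K ^ 2 - 2 * K + 1) K (K - 1) (2 * K) (2 * K - 1) := by
    refine cell_of_basis (P1 := 1) (P2 := 2 * K - 1) (S1 := K - 1) (S2 := -K) ⟨1, by ring⟩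
      ⟨0, by ring⟩ ?_ ?_ ?_ ?_ ?_ ?_ ?_
    all_goals nlinarith
  have hA : Lat (2 * K ^ 2 - 2 * K + 1) K (K - 1) K (K - 1) := ⟨1, by ring⟩
  have hB : Lat (2 * K ^ 2 - 2 * K + 1) K (K - 1) (K - 1) (-K) := ⟨0, by ring⟩
  intro x y
  have hm2 : 0 < 2 * m := by linarith
  have e1 := Int.emod_add_mul_ediv (2 * (x + y) + m * (2 * K - 1)) (2 * m)
  have e2 := Int.emod_nonneg (2 * (x + y) + m * (2 * K - 1)) (ne_of_gt hm2)
  have e3 := Int.emod_lt_of_pos (2 * (x + y) + m * (2 * K - 1)) hm2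
  have f1 := Int.emod_add_mul_ediv (2 * (x - y) + m * (2 * K - 1)) (2 * m)
  have f2 := Int.emod_nonneg (2 * (x - y) + m * (2 * K - 1)) (ne_of_gt hm2)
  have f3 := Int.emod_lt_of_pos (2 * (x - y) + m * (2 * K - 1)) hm2
  set i := (2 * (x + y) + m * (2 * K - 1)) / (2 * m)
  set j := (2 * (x - y) + m * (2 * K - 1)) / (2 * m)
  -- the generic covering argument
  have key : ∀ a b : ℤ, a + b ≤ i → i < a + b + (2 * K - 1) → a - b ≤ j →
      j < a - b + (2 * K - 1) → |x - m * a| + |y - m * b| ≤ m * K - 1 := by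
    intro a b h1 h2 h3 h4
    rw [l1_iff]
    have g1 : 2 * m * (a + b) ≤ 2 * m * i := mul_le_mul_of_nonneg_left h1 hm2.le
    have g2 : 2 * m * (i + 1) ≤ 2 * m * (a + b + (2 * K - 1)) :=
      mul_le_mul_of_nonneg_left (by linarith) hm2.le
    have g3 : 2 * m * (a - b) ≤ 2 * m * j := mul_le_mul_of_nonneg_left h3 hm2.le
    have g4 : 2 * m * (j + 1) ≤ 2 * m * (a - b + (2 * K - 1)) :=
      mul_le_mul_of_nonneg_left (by linarith) hm2.le
    constructor
    · rw [abs_le]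
      have t1 : -(2 * (m * K - 1)) ≤ 2 * (x - m * a + (y - m * b)) := by nlinarith
      have t2 : 2 * (x - m * a + (y - m * b)) ≤ 2 * (m * K - 1) := by nlinarith
      constructor <;> linarith
    · rw [abs_le]
      have t1 : -(2 * (m * K - 1)) ≤ 2 * (x - m * a - (y - m * b)) := by nlinarith
      have t2 : 2 * (x - m * a - (y - m * b)) ≤ 2 * (m * K - 1) := by nlinarith
      constructor <;> linarith
  obtain ⟨a, b, hL, h1, h2, h3, h4⟩ := hcell i j
  by_cases h5 : i < a + b + (2 * K - 1)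
  · exact ⟨a, b, hL, key a b h1 h5 h3 h4⟩
  by_cases h6 : a - b + 1 ≤ j
  · refine ⟨a + K, b + (K - 1), hL.add hA, key _ _ ?_ ?_ ?_ ?_⟩ <;> linarith
  -- the gap
  have hi : i = a + b + (2 * K - 1) := by omega
  have hj : j = a - b := by omega
  rw [hi] at e1
  rw [hj] at f1
  -- new centre `p0 = (a, b) - B`
  obtain ⟨a0, ha0⟩ : ∃ a0, a0 = a - (K - 1) := ⟨_, rfl⟩
  obtain ⟨b0, hb0⟩ : ∃ b0, b0 = b + K := ⟨_, rfl⟩
  have hL0 : Lat (2 * K ^ 2 - 2 * K + 1) K (K - 1) a0 b0 := by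
    have := hL.lin hB 1 (-1)
    rw [ha0, hb0]
    convert this using 1 <;> ring
  have ha : a = a0 + (K - 1) := by linarith
  have hb : b = b0 - K := by linarith
  obtain ⟨E1, hE1⟩ : ∃ E1, E1 = (x + y) - m * (a0 + b0) - m * (K - 1) := ⟨_, rfl⟩
  obtain ⟨E2, hE2⟩ : ∃ E2, E2 = (x - y) - m * (a0 - b0) - m * K := ⟨_, rfl⟩
  have b1 : 0 ≤ 2 * E1 + m := by
    have : 2 * E1 + m = (2 * (x + y) + m * (2 * K - 1)) % (2 * m) := by
      rw [hE1]
      have : (2 * (x + y) + m * (2 * K - 1)) % (2 * m) =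
        2 * (x + y) + m * (2 * K - 1) - 2 * m * (a + b + (2 * K - 1)) := by linarith
      rw [this, ha, hb]; ring
    linarith
  have b2 : 2 * E1 + m < 2 * m := by
    have : 2 * E1 + m = (2 * (x + y) + m * (2 * K - 1)) % (2 * m) := by
      rw [hE1]
      have : (2 * (x + y) + m * (2 * K - 1)) % (2 * m) =
        2 * (x + y) + m * (2 * K - 1) - 2 * m * (a + b + (2 * K - 1)) := by linarith
      rw [this, ha, hb]; ring
    linarith
  have b3 : 0 ≤ 2 * E2 + m := by
    have : 2 * E2 + m = (2 * (x - y) + m * (2 * K - 1)) % (2 * m) := by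
      rw [hE2]
      have : (2 * (x - y) + m * (2 * K - 1)) % (2 * m) =
        2 * (x - y) + m * (2 * K - 1) - 2 * m * (a - b) := by linarith
      rw [this, ha, hb]; ring
    linarith
  have b4 : 2 * E2 + m < 2 * m := by
    have : 2 * E2 + m = (2 * (x - y) + m * (2 * K - 1)) % (2 * m) := by
      rw [hE2]
      have : (2 * (x - y) + m * (2 * K - 1)) % (2 * m) =
        2 * (x - y) + m * (2 * K - 1) - 2 * m * (a - b) := by linarith
      rw [this, ha, hb]; ring
    linarith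
  have hpar : ¬ (E1 = 0 ∧ E2 = 0) := by
    rintro ⟨r1, r2⟩
    have : 2 * x = m * (2 * a0 + 2 * K - 1) := by
      have : 2 * x = (x + y) + (x - y) := by ring
      rw [this]; linarith
    have h7 : (m * (2 * a0 + 2 * K - 1)) % 2 = 0 := by omega
    have h8 : (2 * a0 + 2 * K - 1) % 2 = 1 := by omega
    rw [Int.mul_emod, hodd, h8] at h7
    norm_num at h7
  have hKm : m ≤ m * K := by nlinarith
  by_cases c1 : E2 ≤ -1
  · refine ⟨a0, b0, hL0, ?_⟩
    rw [l1_iff, abs_le, abs_le]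
    refine ⟨⟨?_, ?_⟩, ?_, ?_⟩ <;> nlinarith
  by_cases c2 : 1 ≤ E2
  · refine ⟨a0 + (K + (K - 1)), b0 + (K - 1 + -K), hL0.add (hA.add hB), ?_⟩
    rw [l1_iff, abs_le, abs_le]
    refine ⟨⟨?_, ?_⟩, ?_, ?_⟩ <;> nlinarith
  by_cases c3 : 1 ≤ E1
  · refine ⟨a0 + K, b0 + (K - 1), hL0.add hA, ?_⟩
    rw [l1_iff, abs_le, abs_le]
    refine ⟨⟨?_, ?_⟩, ?_, ?_⟩ <;> nlinarith
  by_cases c4 : E1 ≤ -1
  · refine ⟨a0 + (K - 1), b0 + -K, hL0.add hB, ?_⟩
    rw [l1_iff, abs_le, abs_le]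
    refine ⟨⟨?_, ?_⟩, ?_, ?_⟩ <;> nlinarith
  exact absurd ⟨by omega, by omega⟩ hpar

/-! ## Lower bounds -/

theorem cell_of_cov {q d1 d2 R : ℤ} (h : Cov q d1 d2 2 R) : Cell q d1 d2 R R := by
  intro i j
  obtain ⟨a, b, hL, h1⟩ := h (i + j - R + 1) (i - j)
  rw [l1_iff, abs_le, abs_le] at h1
  refine ⟨a, b, hL, ?_, ?_, ?_, ?_⟩ <;> omega

theorem exists_repr {q : ℕ} [NeZero q] {d1 d2 x y z : ℤ} (hB : x * d1 + y * d2 + z * q = 1)
    (g : ZMod q) : ∃ X Y : ℤ, ((d1 * X + d2 * Y : ℤ) : ZMod q) = g := by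
  refine ⟨x * g.val, y * g.val, ?_⟩
  have : d1 * (x * g.val) + d2 * (y * g.val) = g.val - q * (z * g.val) := by
    linear_combination (g.val : ℤ) * hB
  rw [this]
  simp

theorem count_cell {q : ℕ} (hq : 0 < q) {d1 d2 x y z A B : ℤ}
    (hB : x * d1 + y * d2 + z * q = 1) (hc : Cell q d1 d2 A B) (hA0 : 0 ≤ A) (hB0 : 0 ≤ B) :
    2 * (q : ℤ) ≤ A * B := by
  have : NeZero q := ⟨hq.ne'⟩
  choose X Y hXY using exists_repr hB
  choose a b hL h1 h2 h3 h4 using hc
  let I : ZMod q × Bool → ℤ := fun t => X t.1 + Y t.1 + (if t.2 then 1 else 0)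
  let J : ZMod q × Bool → ℤ := fun t => X t.1 - Y t.1
  let F : ZMod q × Bool → ℤ × ℤ := fun t =>
    (I t - (a (I t) (J t) + b (I t) (J t)), J t - (a (I t) (J t) - b (I t) (J t)))
  have hF : ∀ t ∈ (Finset.univ : Finset (ZMod q × Bool)),
      F t ∈ Finset.Ico (0 : ℤ) A ×ˢ Finset.Ico (0 : ℤ) B := by
    intro t _
    rw [Finset.mem_product, Finset.mem_Ico, Finset.mem_Ico]
    have := h1 (I t) (J t)
    have := h2 (I t) (J t)
    have := h3 (I t) (J t)
    have := h4 (I t) (J t)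
    simp only [F]
    refine ⟨⟨?_, ?_⟩, ?_, ?_⟩ <;> linarith
  have hinj : Set.InjOn F ((Finset.univ : Finset (ZMod q × Bool)) : Set (ZMod q × Bool)) := by
    rintro ⟨g, e⟩ _ ⟨g', e'⟩ _ he
    have he1 := congrArg Prod.fst he
    have he2 := congrArg Prod.snd he
    simp only [F] at he1 he2
    have l1 := hL (I (g, e)) (J (g, e))
    have l2 := hL (I (g', e')) (J (g', e'))
    set a1 := a (I (g, e)) (J (g, e))
    set b1 := b (I (g, e)) (J (g, e))
    set a2 := a (I (g', e')) (J (g', e'))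
    set b2 := b (I (g', e')) (J (g', e'))
    simp only [I, J] at he1 he2
    have hee : e = e' := by
      cases e <;> cases e' <;> simp at he1 ⊢ <;> omega
    subst hee
    have hx : X g - X g' = a1 - a2 := by
      cases e <;> simp at he1 <;> omega
    have hy : Y g - Y g' = b1 - b2 := by
      cases e <;> simp at he1 <;> omega
    have hgg : g = g' := by
      rw [← hXY g, ← hXY g', ZMod.intCast_eq_intCast_iff_dvd_sub]
      have : d1 * X g' + d2 * Y g' - (d1 * X g + d2 * Y g) =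
        (d1 * a2 + d2 * b2) - (d1 * a1 + d2 * b1) := by linear_combination (-d1) * hx - d2 * hy
      rw [this]
      exact dvd_sub l2 l1
    rw [hgg]
  have hcard := Finset.card_le_card_of_injOn F hF hinj
  rw [Finset.card_univ, Fintype.card_prod, ZMod.card, Fintype.card_bool, Finset.card_product,
    Int.card_Ico, Int.card_Ico] at hcard
  have : ((q * 2 : ℕ) : ℤ) ≤ (((A - 0).toNat * (B - 0).toNat : ℕ) : ℤ) := by exact_mod_cast hcard
  rw [Nat.cast_mul, Nat.cast_mul, Int.toNat_of_nonneg (by linarith),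
    Int.toNat_of_nonneg (by linarith)] at this
  push_cast at this
  linarith

theorem count_ball {q t : ℕ} (hq : 0 < q) {d1 d2 x y z : ℤ}
    (hB : x * d1 + y * d2 + z * q = 1) (hc : Cov q d1 d2 1 t) :
    q ≤ (t + 1) * (t + 1) + t * t := by
  have : NeZero q := ⟨hq.ne'⟩
  let F1 : Fin (t + 1) × Fin (t + 1) → ZMod q := fun p =>
    ((d1 * ((p.1 : ℤ) + p.2 - t) + d2 * ((p.1 : ℤ) - p.2) : ℤ) : ZMod q)
  let F2 : Fin t × Fin t → ZMod q := fun p =>
    ((d1 * ((p.1 : ℤ) + p.2 - t + 1) + d2 * ((p.1 : ℤ) - p.2) : ℤ) : ZMod q)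
  have hcov : (Finset.univ : Finset (ZMod q)) ⊆
      Finset.univ.image F1 ∪ Finset.univ.image F2 := by
    intro g _
    obtain ⟨X, Y, hXY⟩ := exists_repr hB g
    obtain ⟨a, b, hL, h1⟩ := hc X Y
    rw [l1_iff, abs_le, abs_le] at h1
    have hval : ((d1 * (X - a) + d2 * (Y - b) : ℤ) : ZMod q) = g := by
      rw [← hXY, ZMod.intCast_eq_intCast_iff_dvd_sub]
      have : d1 * X + d2 * Y - (d1 * (X - a) + d2 * (Y - b)) = d1 * a + d2 * b := by ring
      rw [this]; exact hL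
    rw [Finset.mem_union, Finset.mem_image, Finset.mem_image]
    by_cases hp : (X - a + (Y - b) + t) % 2 = 0
    · left
      refine ⟨(⟨((X - a + (Y - b) + t) / 2).toNat, by omega⟩,
        ⟨((X - a - (Y - b) + t) / 2).toNat, by omega⟩), Finset.mem_univ _, ?_⟩
      simp only [F1]
      rw [← hval]
      congr 1
      rw [Int.toNat_of_nonneg (by omega), Int.toNat_of_nonneg (by omega)]
      have e1 : (X - a + (Y - b) + t) / 2 + (X - a - (Y - b) + t) / 2 - t = X - a := by omega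
      have e2 : (X - a + (Y - b) + t) / 2 - (X - a - (Y - b) + t) / 2 = Y - b := by omega
      rw [e1, e2]
    · right
      refine ⟨(⟨((X - a + (Y - b) + t - 1) / 2).toNat, by omega⟩,
        ⟨((X - a - (Y - b) + t - 1) / 2).toNat, by omega⟩), Finset.mem_univ _, ?_⟩
      simp only [F2]
      rw [← hval]
      congr 1
      rw [Int.toNat_of_nonneg (by omega), Int.toNat_of_nonneg (by omega)]
      have e1 : (X - a + (Y - b) + t - 1) / 2 + (X - a - (Y - b) + t - 1) / 2 - t + 1 = X - a := by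
        omega
      have e2 : (X - a + (Y - b) + t - 1) / 2 - (X - a - (Y - b) + t - 1) / 2 = Y - b := by omega
      rw [e1, e2]
  have h1 := Finset.card_le_card hcov
  rw [Finset.card_univ, ZMod.card] at h1
  have h2 : (Finset.univ.image F1 ∪ Finset.univ.image F2).card ≤
    (t + 1) * (t + 1) + t * t := by
    refine (Finset.card_union_le _ _).trans (Nat.add_le_add ?_ ?_)
    · refine Finset.card_image_le.trans ?_
      simp
    · refine Finset.card_image_le.trans ?_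
      simp
  exact h1.trans h2

/-- a lattice vector on the right of the square -/
theorem exists_step {q : ℕ} (hq : 0 < q) {d1 d2 x y z R : ℤ}
    (hB : x * d1 + y * d2 + z * q = 1) (hc : Cell q d1 d2 R R) (hR : 1 ≤ R)
    (hlt : (R - 1) * R < 2 * q) : ∃ a b : ℤ, Lat q d1 d2 a b ∧ a + b = R ∧ |a - b| ≤ R - 1 := by
  have hn : ¬ Cell q d1 d2 (R - 1) R := fun h => by
    have := count_cell hq hB h (by linarith) (by linarith)
    linarith
  unfold Cell at hn
  push Not at hn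
  obtain ⟨i, j, hij⟩ := hn
  obtain ⟨a, b, hL, h1, h2, h3, h4⟩ := hc i j
  obtain ⟨a', b', hL', h1', h2', h3', h4'⟩ := hc (i + 1) j
  have e1 : i = a + b + R - 1 := by
    by_contra hne
    have := hij a b hL h1 (by omega) h3
    omega
  have e2 : a' + b' = i + 1 := by
    by_contra hne
    have := hij a' b' hL' (by omega) (by omega) h3'
    omega
  refine ⟨a' - a, b' - b, ?_, by linarith, ?_⟩
  · have := hL'.lin hL 1 (-1)
    convert this using 1 <;> ring
  · rw [abs_le]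
    constructor <;> linarith

theorem cell_swap {q d1 d2 A B : ℤ} (h : Cell q d1 d2 A B) : Cell q d1 (-d2) B A := by
  intro i j
  obtain ⟨a, b, hL, h1, h2, h3, h4⟩ := h j i
  refine ⟨a, -b, ?_, by linarith, by linarith, by linarith, by linarith⟩
  unfold Lat at *
  have : d1 * a + -d2 * -b = d1 * a + d2 * b := by ring
  rw [this]; exact hL

theorem dvd_det {q d1 d2 x y z a b a' b' : ℤ} (hB : x * d1 + y * d2 + z * q = 1)
    (h : Lat q d1 d2 a b) (h' : Lat q d1 d2 a' b') : q ∣ a * b' - b * a' := by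
  obtain ⟨c, hc⟩ := h
  obtain ⟨c', hc'⟩ := h'
  refine ⟨x * (c * b' - b * c') + y * (a * c' - c * a') + z * (a * b' - b * a'), ?_⟩
  linear_combination (-(a * b' - b * a')) * hB + (x * b' - y * a') * hc + (y * a - x * b) * hc'

/-- the arithmetic restriction for an even side -/
theorem even_case {q : ℕ} (hq : 0 < q) {d1 d2 x y z k : ℤ}
    (hB : x * d1 + y * d2 + z * q = 1) (hc : Cell q d1 d2 (2 * k) (2 * k)) (hk : 1 ≤ k)
    (hlt : 2 * k ^ 2 - k < q) : (q : ℤ) % 2 = 0 ∧ ¬ (k % 2 = 1 ∧ (q : ℤ) % 4 = 0) := by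
  obtain ⟨a, b, hL, e1, e2⟩ := exists_step hq hB hc (by linarith) (by nlinarith)
  have hB' : x * d1 + (-y) * (-d2) + z * q = 1 := by linarith
  obtain ⟨a', b', hL', e1', e2'⟩ := exists_step hq hB' (cell_swap hc) (by linarith) (by nlinarith)
  -- back to the lattice
  have hL'' : Lat q d1 d2 a' (-b') := by
    unfold Lat at *
    have : d1 * a' + d2 * -b' = d1 * a' + -d2 * b' := by ring
    rw [this]; exact hL'
  rw [abs_le] at e2 e2'
  obtain ⟨u, hu⟩ : ∃ u, a = k + u := ⟨a - k, by ring⟩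
  obtain ⟨v, hv⟩ : ∃ v, a' = k + v := ⟨a' - k, by ring⟩
  have hb : b = k - u := by linarith
  have hb' : b' = k - v := by linarith
  have hu1 : |u| ≤ k - 1 := by rw [abs_le]; constructor <;> omega
  have hv1 : |v| ≤ k - 1 := by rw [abs_le]; constructor <;> omega
  have huv : |u * v| ≤ (k - 1) ^ 2 := by
    rw [abs_mul, pow_two]
    exact mul_le_mul hu1 hv1 (abs_nonneg _) (by linarith)
  rw [abs_le] at huv
  obtain ⟨c, hc⟩ := dvd_det hB hL hL''
  have hc2 : 2 * k ^ 2 - 2 * (u * v) = q * (-c) := by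
    have : a * -b' - b * a' = -(2 * k ^ 2 - 2 * (u * v)) := by
      rw [hu, hv, hb, hb']; ring
    linarith
  have hc1 : -c = 1 := by
    have h1 : 0 < -c := by
      by_contra hneg
      push Not at hneg
      have : (q : ℤ) * (-c) ≤ 0 := mul_nonpos_of_nonneg_of_nonpos (by positivity) hneg
      nlinarith
    have h2 : -c < 2 := by
      by_contra hneg
      push Not at hneg
      have : (q : ℤ) * 2 ≤ q * (-c) := mul_le_mul_of_nonneg_left hneg (by positivity)
      nlinarith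
    omega
  rw [hc1, mul_one] at hc2
  refine ⟨by omega, ?_⟩
  rintro ⟨hk1, hq4⟩
  have hkk : k ^ 2 % 2 = 1 := by rw [pow_two, Int.mul_emod, hk1]; norm_num
  have huv2 : (u * v) % 2 = 1 := by omega
  have hu2 : u % 2 = 1 := by
    rcases Int.emod_two_eq_zero_or_one u with h | h
    · rw [Int.mul_emod, h] at huv2; simp at huv2
    · exact h
  have hv2 : v % 2 = 1 := by
    rcases Int.emod_two_eq_zero_or_one v with h | h
    · rw [Int.mul_emod, h] at huv2; simp at huv2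
    · exact h
  obtain ⟨r, hr⟩ : ∃ r : ℤ, (q : ℤ) = 4 * r := ⟨q / 4, by omega⟩
  obtain ⟨a1, ha1⟩ : ∃ a1, a = 2 * a1 := ⟨a / 2, by omega⟩
  obtain ⟨b1, hb1⟩ : ∃ b1, b = 2 * b1 := ⟨b / 2, by omega⟩
  obtain ⟨a2, ha2⟩ : ∃ a2, a' = 2 * a2 := ⟨a' / 2, by omega⟩
  obtain ⟨b2, hb2⟩ : ∃ b2, b' = 2 * b2 := ⟨b' / 2, by omega⟩
  have m1 : Lat (2 * r) d1 d2 a1 b1 := by
    obtain ⟨w, hw⟩ := hL
    refine ⟨w, ?_⟩
    rw [ha1, hb1, hr] at hw
    linarith
  have m2 : Lat (2 * r) d1 d2 a2 (-b2) := by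
    obtain ⟨w, hw⟩ := hL''
    refine ⟨w, ?_⟩
    rw [ha2, hb2, hr] at hw
    linarith
  have hB2 : x * d1 + y * d2 + (2 * z) * (2 * r) = 1 := by
    rw [hr] at hB; linarith
  obtain ⟨w, hw⟩ := dvd_det hB2 m1 m2
  have hdet : a * -b' - b * a' = -q := by
    rw [hc]
    have : c = -1 := by linarith
    rw [this]; ring
  rw [ha1, hb1, ha2, hb2, hr] at hdet
  have h5 : a1 * -b2 - b1 * a2 = -r := by linarith
  rw [h5] at hw
  have hrpos : 0 < r := by
    have : (0 : ℤ) < q := by exact_mod_cast hq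
    linarith
  have h6 : r * (2 * w + 1) = 0 := by linarith
  rcases mul_eq_zero.1 h6 with h | h
  · exact hrpos.ne' h
  · omega

/-- reduction to `m = 2` -/
theorem cov_two {q d1 d2 m s ρ : ℤ} (hm : 2 ≤ m) (h : Cov q d1 d2 m s)
    (h1 : m * ρ ≤ 2 * s + 1) (h2 : 2 * s + 1 < m * (ρ + 1)) :
    Cov q d1 d2 2 ρ ∨ (m % 2 = 1 ∧ ∃ j : ℤ, m * j = s + 1 ∧ ρ = 2 * j - 1 ∧
      Cov q d1 d2 1 (j - 1)) := by
  by_cases hex : m % 2 = 1 ∧ 2 * s + 2 = m * (ρ + 1)
  · right
    obtain ⟨hm1, he⟩ := hex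
    have hρ : (ρ + 1) % 2 = 0 := by
      rcases Int.emod_two_eq_zero_or_one (ρ + 1) with hh | hh
      · exact hh
      · have : (m * (ρ + 1)) % 2 = 1 := by rw [Int.mul_emod, hm1, hh]; norm_num
        omega
    obtain ⟨j, hj⟩ : ∃ j, ρ + 1 = 2 * j := ⟨(ρ + 1) / 2, by omega⟩
    have hj2 : m * j = s + 1 := by
      rw [hj] at he; linarith
    refine ⟨hm1, j, hj2, by linarith, ?_⟩
    intro x y
    obtain ⟨a, b, hL, hd⟩ := h (m * x) (m * y)
    refine ⟨a, b, hL, ?_⟩
    have e1 : |m * x - m * a| = m * |x - 1 * a| := by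
      rw [one_mul, ← mul_sub, abs_mul, abs_of_pos (by linarith : (0 : ℤ) < m)]
    have e2 : |m * y - m * b| = m * |y - 1 * b| := by
      rw [one_mul, ← mul_sub, abs_mul, abs_of_pos (by linarith : (0 : ℤ) < m)]
    rw [e1, e2, ← mul_add] at hd
    by_contra hcon
    push Not at hcon
    have : m * j ≤ m * (|x - 1 * a| + |y - 1 * b|) :=
      mul_le_mul_of_nonneg_left (by linarith) (by linarith)
    linarith
  · left
    intro x y
    obtain ⟨e1, he1, he1'⟩ : ∃ e1 : ℤ, (e1 = 0 ∨ (e1 = 1 ∧ m % 2 = 1)) ∧ (m * x + e1) % 2 = 0 := by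
      rcases Int.emod_two_eq_zero_or_one (m * x) with hh | hh
      · exact ⟨0, Or.inl rfl, by omega⟩
      · refine ⟨1, Or.inr ⟨rfl, ?_⟩, by omega⟩
        rcases Int.emod_two_eq_zero_or_one m with h3 | h3
        · rw [Int.mul_emod, h3] at hh; simp at hh
        · exact h3
    obtain ⟨e2, he2, he2'⟩ : ∃ e2 : ℤ, (e2 = 0 ∨ (e2 = 1 ∧ m % 2 = 1)) ∧ (m * y + e2) % 2 = 0 := by
      rcases Int.emod_two_eq_zero_or_one (m * y) with hh | hh
      · exact ⟨0, Or.inl rfl, by omega⟩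
      · refine ⟨1, Or.inr ⟨rfl, ?_⟩, by omega⟩
        rcases Int.emod_two_eq_zero_or_one m with h3 | h3
        · rw [Int.mul_emod, h3] at hh; simp at hh
        · exact h3
    obtain ⟨X, hX⟩ : ∃ X, m * x + e1 = 2 * X := ⟨(m * x + e1) / 2, by omega⟩
    obtain ⟨Y, hY⟩ : ∃ Y, m * y + e2 = 2 * Y := ⟨(m * y + e2) / 2, by omega⟩
    obtain ⟨a, b, hL, hd⟩ := h X Y
    refine ⟨a, b, hL, ?_⟩
    by_contra hcon
    push Not at hcon
    have g1 : m * |x - 2 * a| ≤ 2 * |X - m * a| + e1 := by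
      have : m * |x - 2 * a| = |2 * (X - m * a) - e1| := by
        rw [← abs_of_pos (by linarith : (0 : ℤ) < m), ← abs_mul, abs_of_pos (by linarith : (0 : ℤ) < m)]
        congr 1; linarith
      rw [this]
      have h3 : |2 * (X - m * a) - e1| ≤ |2 * (X - m * a)| + |e1| := abs_sub _ _
      rw [abs_mul, abs_two] at h3
      have h4 : |e1| = e1 := abs_of_nonneg (by rcases he1 with h | h <;> omega)
      linarith
    have g2 : m * |y - 2 * b| ≤ 2 * |Y - m * b| + e2 := by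
      have : m * |y - 2 * b| = |2 * (Y - m * b) - e2| := by
        rw [← abs_of_pos (by linarith : (0 : ℤ) < m), ← abs_mul, abs_of_pos (by linarith : (0 : ℤ) < m)]
        congr 1; linarith
      rw [this]
      have h3 : |2 * (Y - m * b) - e2| ≤ |2 * (Y - m * b)| + |e2| := abs_sub _ _
      rw [abs_mul, abs_two] at h3
      have h4 : |e2| = e2 := abs_of_nonneg (by rcases he2 with h | h <;> omega)
      linarith
    have g3 : m * (ρ + 1) ≤ m * (|x - 2 * a| + |y - 2 * b|) :=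
      mul_le_mul_of_nonneg_left (by linarith) (by linarith)
    have g4 : m * (ρ + 1) ≤ 2 * s + e1 + e2 := by linarith
    apply hex
    rcases he1 with h5 | h5 <;> rcases he2 with h6 | h6
    · omega
    · omega
    · omega
    · exact ⟨h5.2, by omega⟩

end Pool.Agent.Q128.Span
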