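import Pool.Agent.Q128.Span.Defs
import Pool.Agent.Q128.Span.Lower

/-!
# Two-element spanning sets in groups of rank two
-/

set_option autoImplicit false

namespace Pool.Agent.Q128.Span

theorem int_exists {s m q : ℕ} (hm : 2 ≤ m) (hq : 0 < q) (h : Adm s m q) :
    ∃ d1 d2 : ℤ, IsCoprime d1 d2 ∧ Cov q d1 d2 m s := by
  have hm0 : (0 : ℤ) < m := by exact_mod_cast (by omega : 0 < m)
  have hq0 : (0 : ℤ) < q := by exact_mod_cast hq
  have hdiv : m * ((2 * s + 1) / m) ≤ 2 * s + 1 := Nat.mul_div_le _ _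
  rcases h with ⟨k, hk, h⟩ | ⟨k, hk, h⟩
  · rw [hk] at hdiv
    have hdiv' : (m : ℤ) * (2 * k + 1) ≤ 2 * s + 1 := by exact_mod_cast hdiv
    rcases h with h | ⟨h1, h2, h3⟩
    · refine ⟨k + 1, k, ⟨1, -1, by ring⟩, cov_of_cell (cell_odd hq0 ?_ (by positivity)) hm0 hdiv'⟩
      exact_mod_cast h
    · have hlt : 2 * s + 1 < m * ((2 * s + 1) / m + 1) := Nat.lt_mul_div_succ _ (by omega)
      rw [hk] at hlt
      obtain ⟨j, hj⟩ := h2
      have hjk : j = k + 1 := by
        have e1 : m * (2 * k + 1) ≤ 2 * s + 1 := hdiv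
        have e2 : 2 * (m * j) = 2 * s + 2 := by rw [← hj]; ring
        have e3 : 2 * s + 2 ≤ m * (2 * k + 2) := hlt
        have e4 : m * (2 * j) = 2 * s + 2 := by rw [← e2]; ring
        have e5 : 2 * j ≤ 2 * k + 2 := by
          by_contra hcon
          have h6 : m * (2 * k + 3) ≤ m * (2 * j) := Nat.mul_le_mul_left _ (by omega)
          have h7 : m * (2 * k + 3) = m * (2 * k + 1) + 2 * m := by ring
          have h8 : m * (2 * k + 2) = m * (2 * k + 1) + m := by ring
          have h9 : m * (2 * k + 3) = m * (2 * k + 2) + m := by ring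
          -- `2 s + 2 ≥ m (2 k + 2) + m` and `2 s + 1 < m (2 k + 2)`
          omega
        have e6 : 2 * k + 2 ≤ 2 * j := by
          by_contra hcon
          have h6 : m * (2 * j) ≤ m * (2 * k + 1) := Nat.mul_le_mul_left _ (by omega)
          omega
        omega
      have hs : (s : ℤ) = m * (k + 1) - 1 := by
        have : ((s + 1 : ℕ) : ℤ) = ((m * j : ℕ) : ℤ) := by rw [hj]
        rw [hjk] at this
        push_cast at this
        linarith
      have hm3 : (3 : ℤ) ≤ m := by
        obtain ⟨r, hr⟩ := h1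
        have : 3 ≤ m := by omega
        exact_mod_cast this
      have hmo : (m : ℤ) % 2 = 1 := by
        obtain ⟨r, hr⟩ := h1
        omega
      refine ⟨k + 1, k, ⟨1, -1, by ring⟩, ?_⟩
      have := cov_perfect (K := k + 1) (m := m) (by linarith) hm3 hmo
      rw [hs, h3]
      convert this using 1
      · push_cast; ring
      · ring
  · rw [hk] at hdiv
    have hdiv' : (m : ℤ) * (2 * k) ≤ 2 * s + 1 := by exact_mod_cast hdiv
    have hk0 : 0 < k := by
      rcases Nat.eq_zero_or_pos k with h0 | h0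
      · subst h0
        rcases h with h | h
        · simp at h; omega
        · have := h.1
          simp at this; omega
      · exact h0
    have hk0' : (0 : ℤ) < k := by exact_mod_cast hk0
    rcases h with h | ⟨h1, h2, h3⟩
    · refine ⟨k, k - 1, ⟨1, -1, by ring⟩, cov_of_cell (cell_even hq0 ?_ hk0') hm0 hdiv'⟩
      have : (q : ℤ) + k ≤ 2 * k ^ 2 := by exact_mod_cast h
      linarith
    · obtain ⟨r, hr⟩ := h2
      obtain ⟨a, ha⟩ : ∃ a : ℤ, a = k ^ 2 - r := ⟨_, rfl⟩
      have hqa : (q : ℤ) = 2 * k ^ 2 - 2 * a := by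
        rw [ha, hr]; push_cast; ring
      have ha0 : 0 ≤ a := by
        have : (q : ℤ) ≤ 2 * k ^ 2 := by exact_mod_cast h1
        linarith
      have hak : a < k ^ 2 := by linarith
      rcases Nat.even_or_odd k with hke | hko
      · refine ⟨k + 1, k - 1, ?_, ?_⟩
        · obtain ⟨t, ht⟩ := hke
          refine ⟨t, -t - 1, ?_⟩
          rw [ht]; push_cast; ring
        · rw [hqa]
          exact cov_of_cell (cell_even' ha0 hak hk0') hm0 hdiv'
      · refine ⟨k ^ 2 - a - k - 1, k ^ 2 - a - k + 1, ?_, ?_⟩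
        · -- `k ^ 2 - a = r` is odd
          have hr1 : Odd r := by
            by_contra hcon
            rw [Nat.not_odd_iff_even] at hcon
            obtain ⟨w, hw⟩ := hcon
            exact h3 ⟨hko, ⟨w, by omega⟩⟩
          obtain ⟨t, ht⟩ := hko
          obtain ⟨w, hw⟩ := hr1
          have e1 : (k : ℤ) ^ 2 - a = r := by linarith
          have e2 : (k : ℤ) = 2 * t + 1 := by exact_mod_cast ht
          have e3 : (r : ℤ) = 2 * w + 1 := by exact_mod_cast hw
          rw [e1, e2, e3]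
          -- `2 (w - t) - 1` and `2 (w - t) + 1`
          exact ⟨-(w - t) - 1, (w - t), by ring⟩
        · rw [hqa]
          exact cov_of_cell (cell_even'' ha0 hak hk0') hm0 hdiv'

theorem int_only {s m q : ℕ} (hm : 2 ≤ m) (hq : 0 < q) {d1 d2 x y z : ℤ}
    (hB : x * d1 + y * d2 + z * q = 1) (h : Cov q d1 d2 m s) : Adm s m q := by
  have hdiv : m * ((2 * s + 1) / m) ≤ 2 * s + 1 := Nat.mul_div_le _ _
  have hlt : 2 * s + 1 < m * ((2 * s + 1) / m + 1) := Nat.lt_mul_div_succ _ (by omega)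
  obtain ⟨ρ, hρ⟩ : ∃ ρ, ρ = (2 * s + 1) / m := ⟨_, rfl⟩
  rw [← hρ] at hdiv hlt
  have hdiv' : (m : ℤ) * ρ ≤ 2 * s + 1 := by exact_mod_cast hdiv
  have hlt' : 2 * (s : ℤ) + 1 < m * (ρ + 1) := by exact_mod_cast hlt
  have hcell : Cell q d1 d2 ρ ρ → Adm s m q := by
    intro hc
    have hcount := count_cell hq hB hc (by positivity) (by positivity)
    rcases Nat.even_or_odd' ρ with ⟨k, hk | hk⟩
    · right
      refine ⟨k, by omega, ?_⟩
      have hkZ : (ρ : ℤ) = 2 * k := by exact_mod_cast hk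
      rw [hkZ] at hcount hc
      have hq2 : (q : ℤ) ≤ 2 * k ^ 2 := by nlinarith
      have hq2' : q ≤ 2 * k ^ 2 := by exact_mod_cast hq2
      by_cases h1 : q + k ≤ 2 * k ^ 2
      · exact Or.inl h1
      · right
        have h1' : 2 * (k : ℤ) ^ 2 - k < q := by
          have : 2 * k ^ 2 < q + k := by omega
          have : (2 * k ^ 2 : ℤ) < q + k := by exact_mod_cast this
          linarith
        have hk1 : 1 ≤ k := by
          rcases Nat.eq_zero_or_pos k with h0 | h0
          · subst h0; simp at hq2'; omega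
          · exact h0
        obtain ⟨h2, h3⟩ := even_case hq hB hc (by exact_mod_cast hk1) h1'
        refine ⟨hq2', ?_, ?_⟩
        · rw [Nat.even_iff]; omega
        · rintro ⟨⟨t, ht⟩, ⟨w, hw⟩⟩
          exact h3 ⟨by omega, by omega⟩
    · left
      refine ⟨k, by omega, Or.inl ?_⟩
      have hkZ : (ρ : ℤ) = 2 * k + 1 := by exact_mod_cast hk
      rw [hkZ] at hcount
      have : 2 * (q : ℤ) ≤ 2 * (2 * k * (k + 1)) + 1 := by nlinarith
      have h2 : (q : ℤ) ≤ 2 * k * (k + 1) := by omega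
      exact_mod_cast h2
  rcases cov_two (by exact_mod_cast hm) h hdiv' hlt' with h1 | ⟨h1, j, h2, h3, h4⟩
  · exact hcell (cell_of_cov h1)
  · have hj : 1 ≤ j := by
      by_contra hcon
      have : (m : ℤ) * j ≤ 0 := mul_nonpos_of_nonneg_of_nonpos (by positivity) (by omega)
      have : (0 : ℤ) ≤ s := by positivity
      linarith
    obtain ⟨k, hk⟩ : ∃ k : ℕ, j = k + 1 := ⟨(j - 1).toNat, by omega⟩
    have hk' : ρ = 2 * k + 1 := by omega
    rw [hk] at h4
    have h5 : Cov q d1 d2 1 (k : ℕ) := by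
      convert h4 using 1; ring
    have h6 := count_ball hq hB h5
    have h7 : (k + 1) * (k + 1) + k * k = 2 * k * (k + 1) + 1 := by ring
    rw [h7] at h6
    left
    refine ⟨k, by omega, ?_⟩
    rcases Nat.lt_or_ge q (2 * k * (k + 1) + 1) with h8 | h8
    · left; omega
    · right
      refine ⟨?_, ?_, by omega⟩
      · rw [Nat.odd_iff]; omega
      · refine ⟨k + 1, ?_⟩
        rw [hk] at h2
        have : ((s + 1 : ℕ) : ℤ) = ((m * (k + 1) : ℕ) : ℤ) := by push_cast; linarith
        exact_mod_cast this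

/-! ## Groups -/

/-- a pair spans -/
def Pair {G : Type*} [AddCommGroup G] (s : ℕ) (a b : G) : Prop :=
  ∀ g : G, ∃ u v : ℤ, |u| + |v| ≤ (s : ℤ) ∧ u • a + v • b = g

theorem isSpanning_pair {G : Type*} [AddCommGroup G] [DecidableEq G] {s : ℕ} {a b : G}
    (hab : a ≠ b) : IsSpanning s {a, b} ↔ Pair s a b := by
  constructor
  · intro h g
    obtain ⟨c, h1, h2⟩ := h g
    rw [Finset.sum_pair hab] at h1 h2
    exact ⟨c a, c b, h1, h2⟩
  · intro h g
    obtain ⟨u, v, h1, h2⟩ := h g
    refine ⟨fun t => if t = a then u else v, ?_, ?_⟩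
    · rw [Finset.sum_pair hab]
      simp [hab.symm, h1]
    · rw [Finset.sum_pair hab]
      simp [hab.symm, h2]

/-- no cyclic subgroup is everything -/
theorem not_single {m n : ℕ} (hm : 2 ≤ m) (hmn : m ∣ n) (a : ZMod m × ZMod n) :
    ¬ ∀ g : ZMod m × ZMod n, ∃ u : ℤ, u • a = g := by
  intro h
  have : Fact (1 < m) := ⟨by omega⟩
  obtain ⟨u, hu⟩ := h (1, 0)
  obtain ⟨v, hv⟩ := h (0, 1)
  have hu1 := congrArg Prod.fst hu
  have hu2 := congrArg Prod.snd hu
  have hv1 := congrArg Prod.fst hv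
  have hv2 := congrArg Prod.snd hv
  simp only [Prod.smul_fst, Prod.smul_snd] at hu1 hu2 hv1 hv2
  simp only [zsmul_eq_mul] at hu1 hu2 hv1 hv2
  have e2 := congrArg (ZMod.castHom hmn (ZMod m)) hu2
  have e3 := congrArg (ZMod.castHom hmn (ZMod m)) hv2
  rw [map_mul, map_intCast, map_zero] at e2
  rw [map_mul, map_intCast, map_one] at e3
  have : (1 : ZMod m) = 0 := by
    calc (1 : ZMod m) = (u * a.1) * (v * (ZMod.castHom hmn (ZMod m)) a.2) := by
          rw [hu1, e3]; ring
      _ = (u * (ZMod.castHom hmn (ZMod m)) a.2) * (v * a.1) := by ring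
      _ = 0 := by rw [e2, zero_mul]
  exact one_ne_zero this

theorem phi_eq_two_iff {m n s : ℕ} (hm : 2 ≤ m) (hmn : m ∣ n) {G : Type*} [AddCommGroup G]
    (e : G ≃+ ZMod m × ZMod n) :
    phi G s = 2 ↔ ∃ a b : ZMod m × ZMod n, Pair s a b := by
  classical
  have hsmall : ∀ A : Finset G, A.card ≤ 1 → ¬ IsSpanning s A := by
    intro A hA h
    rw [Finset.card_le_one_iff_subset_singleton] at hA
    obtain ⟨a, ha⟩ := hA
    refine not_single hm hmn (e a) fun g => ?_
    obtain ⟨c, _, h2⟩ := h (e.symm g)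
    refine ⟨∑ t ∈ A, c t, ?_⟩
    have h3 : ∑ t ∈ A, c t • t = (∑ t ∈ A, c t) • a := by
      rw [Finset.sum_smul]
      refine Finset.sum_congr rfl fun t ht => ?_
      have := ha ht
      rw [Finset.mem_singleton] at this
      rw [this]
    rw [h3] at h2
    rw [← map_zsmul, h2, AddEquiv.apply_symm_apply]
  constructor
  · intro h
    have hne : {n | ∃ A : Finset G, A.card = n ∧ IsSpanning s A}.Nonempty := by
      by_contra hcon
      rw [Set.not_nonempty_iff_eq_empty] at hcon
      unfold phi at h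
      rw [hcon, Nat.sInf_empty] at h
      omega
    obtain ⟨A, hA, hsp⟩ := Nat.sInf_mem hne
    unfold phi at h
    rw [h] at hA
    obtain ⟨a, b, hab, rfl⟩ := Finset.card_eq_two.1 hA
    rw [isSpanning_pair hab] at hsp
    refine ⟨e a, e b, fun g => ?_⟩
    obtain ⟨u, v, h1, h2⟩ := hsp (e.symm g)
    refine ⟨u, v, h1, ?_⟩
    rw [← map_zsmul, ← map_zsmul, ← map_add, h2, AddEquiv.apply_symm_apply]
  · rintro ⟨a, b, h⟩
    have hab : e.symm a ≠ e.symm b := by
      intro hab
      have hab' : a = b := e.symm.injective hab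
      subst hab'
      refine not_single hm hmn a fun g => ?_
      obtain ⟨u, v, _, h2⟩ := h g
      exact ⟨u + v, by rw [add_smul, h2]⟩
    have hsp : IsSpanning s {e.symm a, e.symm b} := by
      rw [isSpanning_pair hab]
      intro g
      obtain ⟨u, v, h1, h2⟩ := h (e g)
      refine ⟨u, v, h1, ?_⟩
      rw [← map_zsmul, ← map_zsmul, ← map_add, h2, AddEquiv.symm_apply_apply]
    have hmem : 2 ∈ {n | ∃ A : Finset G, A.card = n ∧ IsSpanning s A} :=
      ⟨{e.symm a, e.symm b}, Finset.card_pair hab, hsp⟩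
    refine le_antisymm (Nat.sInf_le hmem) ?_
    have hin := Nat.sInf_mem ⟨2, hmem⟩
    obtain ⟨A, hA, hA2⟩ := hin
    by_contra hcon
    push Not at hcon
    refine hsmall A ?_ hA2
    unfold phi at hcon
    omega

theorem pair_iff {m q s : ℕ} (hm : 2 ≤ m) (hq : 0 < q) :
    (∃ a b : ZMod m × ZMod (m * q), Pair s a b) ↔ Adm s m q := by
  have hmn : m ∣ m * q := dvd_mul_right _ _
  have hm0 : (0 : ℤ) < m := by exact_mod_cast (by omega : 0 < m)
  constructor
  · rintro ⟨a, b, h⟩
    obtain ⟨c1, hc1⟩ := ZMod.intCast_surjective a.1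
    obtain ⟨d1, hd1⟩ := ZMod.intCast_surjective a.2
    obtain ⟨c2, hc2⟩ := ZMod.intCast_surjective b.1
    obtain ⟨d2, hd2⟩ := ZMod.intCast_surjective b.2
    -- membership in the kernel
    have hval : ∀ u v : ℤ, u • a + v • b =
        (((u * c1 + v * c2 : ℤ) : ZMod m), ((u * d1 + v * d2 : ℤ) : ZMod (m * q))) := by
      intro u v
      apply Prod.ext
      · simp only [Prod.fst_add, Prod.smul_fst]
        simp only [zsmul_eq_mul]
        rw [← hc1, ← hc2]; push_cast; ring
      · simp only [Prod.snd_add, Prod.smul_snd]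
        simp only [zsmul_eq_mul]
        rw [← hd1, ← hd2]; push_cast; ring
    obtain ⟨X, Y, _, h1⟩ := h (1, 0)
    obtain ⟨X', Y', _, h2⟩ := h (0, 1)
    rw [hval] at h1 h2
    have g1 : (m : ℤ) ∣ X * c1 + Y * c2 - 1 := by
      have := congrArg Prod.fst h1
      simp only at this
      rw [← Int.cast_one, eq_comm, ZMod.intCast_eq_intCast_iff_dvd_sub] at this
      exact this
    have g2 : ((m * q : ℕ) : ℤ) ∣ X * d1 + Y * d2 := by
      have := congrArg Prod.snd h1
      simp only at this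
      rw [ZMod.intCast_zmod_eq_zero_iff_dvd] at this
      exact this
    have g3 : (m : ℤ) ∣ X' * c1 + Y' * c2 := by
      have := congrArg Prod.fst h2
      simp only at this
      rw [ZMod.intCast_zmod_eq_zero_iff_dvd] at this
      exact this
    have g4 : ((m * q : ℕ) : ℤ) ∣ X' * d1 + Y' * d2 - 1 := by
      have := congrArg Prod.snd h2
      simp only at this
      rw [← Int.cast_one, eq_comm, ZMod.intCast_eq_intCast_iff_dvd_sub] at this
      exact this
    have hmq : (m : ℤ) ∣ ((m * q : ℕ) : ℤ) := by exact_mod_cast hmn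
    -- the determinant is invertible modulo `m`
    obtain ⟨w1, hw1⟩ := g1
    obtain ⟨w2, hw2⟩ := hmq.trans g2
    obtain ⟨w3, hw3⟩ := g3
    obtain ⟨w4, hw4⟩ := hmq.trans g4
    have hdet : ∃ w : ℤ, (X * Y' - Y * X') * (c1 * d2 - c2 * d1) = 1 + m * w := by
      refine ⟨w1 + w4 + m * w1 * w4 - m * w2 * w3, ?_⟩
      have e1 : X * c1 + Y * c2 = 1 + m * w1 := by linarith
      have e4 : X' * d1 + Y' * d2 = 1 + m * w4 := by linarith
      calc (X * Y' - Y * X') * (c1 * d2 - c2 * d1) =
          (X * c1 + Y * c2) * (X' * d1 + Y' * d2) - (X * d1 + Y * d2) * (X' * c1 + Y' * c2) := by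
            ring
        _ = (1 + m * w1) * (1 + m * w4) - (m * w2) * (m * w3) := by rw [e1, e4, hw2, hw3]
        _ = _ := by ring
    obtain ⟨w, hw⟩ := hdet
    obtain ⟨z, hz⟩ := g4
    refine int_only (d1 := d1) (d2 := d2) (x := X') (y := Y') (z := -(m * z)) hm hq ?_ ?_
    · push_cast at hz
      linear_combination hz
    · intro x y
      obtain ⟨u, v, h3, h4⟩ := h (x • a + y • b)
      rw [hval, hval] at h4
      have k1 : (m : ℤ) ∣ (x - u) * c1 + (y - v) * c2 := by
        have := congrArg Prod.fst h4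
        simp only at this
        rw [ZMod.intCast_eq_intCast_iff_dvd_sub] at this
        convert this using 1; ring
      have k2 : ((m * q : ℕ) : ℤ) ∣ (x - u) * d1 + (y - v) * d2 := by
        have := congrArg Prod.snd h4
        simp only at this
        rw [ZMod.intCast_eq_intCast_iff_dvd_sub] at this
        convert this using 1; ring
      obtain ⟨r1, hr1⟩ := k1
      obtain ⟨r2, hr2⟩ := hmq.trans k2
      have hx : (m : ℤ) ∣ x - u := by
        refine ⟨(X * Y' - Y * X') * (d2 * r1 - c2 * r2) - w * (x - u), ?_⟩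
        linear_combination (-(x - u)) * hw + (X * Y' - Y * X') * (d2 * hr1 - c2 * hr2)
      have hy : (m : ℤ) ∣ y - v := by
        refine ⟨(X * Y' - Y * X') * (c1 * r2 - d1 * r1) - w * (y - v), ?_⟩
        linear_combination (-(y - v)) * hw + (X * Y' - Y * X') * (c1 * hr2 - d1 * hr1)
      obtain ⟨a', ha'⟩ := hx
      obtain ⟨b', hb'⟩ := hy
      refine ⟨a', b', ?_, ?_⟩
      · obtain ⟨r, hr⟩ := k2
        refine ⟨r, ?_⟩
        rw [ha', hb'] at hr
        push_cast at hr
        have : (m : ℤ) * (d1 * a' + d2 * b') = m * (q * r) := by linarith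
        exact mul_left_cancel₀ hm0.ne' this
      · rw [← ha', ← hb']
        have e1 : x - (x - u) = u := by ring
        have e2 : y - (y - v) = v := by ring
        rw [e1, e2]; exact h3
  · intro h
    obtain ⟨d1, d2, ⟨x, y, hxy⟩, hc⟩ := int_exists hm hq h
    refine ⟨((y : ℤ), (d1 : ℤ)), (((-x : ℤ) : ZMod m), (d2 : ℤ)), ?_⟩
    rintro ⟨g1, g2⟩
    obtain ⟨G1, hG1⟩ := ZMod.intCast_surjective g1
    obtain ⟨G2, hG2⟩ := ZMod.intCast_surjective g2
    obtain ⟨a', b', hL, hd⟩ := hc (G1 * d2 + G2 * x) (G2 * y - G1 * d1)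
    refine ⟨G1 * d2 + G2 * x - m * a', G2 * y - G1 * d1 - m * b', hd, ?_⟩
    apply Prod.ext
    · simp only [Prod.fst_add, Prod.smul_fst]
      simp only [zsmul_eq_mul]
      rw [← hG1]
      have : ((G1 * d2 + G2 * x - m * a' : ℤ) : ZMod m) * ((y : ℤ) : ZMod m) +
          ((G2 * y - G1 * d1 - m * b' : ℤ) : ZMod m) * ((-x : ℤ) : ZMod m) =
          ((G1 + m * (x * b' - y * a') : ℤ) : ZMod m) := by
        rw [← Int.cast_mul, ← Int.cast_mul, ← Int.cast_add]
        congr 1
        linear_combination G1 * hxy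
      rw [this]
      push_cast
      simp
    · simp only [Prod.snd_add, Prod.smul_snd]
      simp only [zsmul_eq_mul]
      rw [← hG2]
      obtain ⟨r, hr⟩ := hL
      have : ((G1 * d2 + G2 * x - m * a' : ℤ) : ZMod (m * q)) * ((d1 : ℤ) : ZMod (m * q)) +
          ((G2 * y - G1 * d1 - m * b' : ℤ) : ZMod (m * q)) * ((d2 : ℤ) : ZMod (m * q)) =
          ((G2 - ((m * q : ℕ) : ℤ) * r : ℤ) : ZMod (m * q)) := by
        rw [← Int.cast_mul, ← Int.cast_mul, ← Int.cast_add]
        congr 1
        push_cast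
        linear_combination G2 * hxy - m * hr
      rw [this]
      push_cast
      have h0 : ((m : ZMod (m * q)) * (q : ZMod (m * q))) = 0 := by
        rw [← Nat.cast_mul, ZMod.natCast_self]
      rw [h0]; ring

/-- two-element spanning sets in groups of rank two -/
theorem main {n1 n2 s : ℕ} (h1 : 2 ≤ n1) (h12 : n1 ∣ n2) (h2 : 0 < n2) {G : Type*}
    [AddCommGroup G] (e : G ≃+ ZMod n1 × ZMod n2) : phi G s = 2 ↔ Adm s n1 (n2 / n1) := by
  rw [phi_eq_two_iff h1 h12 e]
  obtain ⟨q, rfl⟩ := h12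
  have hq : 0 < q := Nat.pos_of_mul_pos_left h2
  rw [pair_iff h1 hq, Nat.mul_div_cancel_left _ (by omega)]

end Pool.Agent.Q128.Span
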